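import Pool.Agent.Helper31.BQ.Stmts

/-!
# Affine Baire-one maps: every Banach space (sheet BE)
-/

set_option autoImplicit false

namespace Pool.Agent.Helper31.BQ

open Filter Topology

universe u

/-- `j` turns the convergence of bounded sequences modulo all `M m` into norm convergence -/
def JC {Y E : Type*} [NormedAddCommGroup Y] [NormedSpace ℝ Y] [NormedAddCommGroup E]
    [NormedSpace ℝ E] (M : ℕ → Submodule ℝ Y) (j : Y →L[ℝ] E) : Prop :=
  ∀ (x : ℕ → Y) (C : ℝ) (y : Y), (∀ n, ‖x n‖ ≤ C) →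
    (∀ m, Tendsto (fun n => (M m).mkQ (x n)) atTop (𝓝 ((M m).mkQ y))) →
    Tendsto (fun n => j (x n)) atTop (𝓝 (j y))

/-- operators that vanish on some `M m` -/
def VM {Y : Type*} (E : Type*) [NormedAddCommGroup Y] [NormedSpace ℝ Y] [NormedAddCommGroup E]
    [NormedSpace ℝ E] (M : ℕ → Submodule ℝ Y) : Set (Y →L[ℝ] E) :=
  {T | ∃ m, ∀ y ∈ M m, T y = 0}

/-- GR (Grothendieck): it is enough to approximate the identity on null sequences. For `K` compact
choose finite sets `F k` with `‖y‖ ≤ 4^(-k) C` on `F k` (`k ≥ 1`) such that every `x ∈ K` is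
`∑ y k` with `y k ∈ F k` (successive finite nets); the vectors `2^k y`, `y ∈ F k`, listed, form a
null sequence, and `x = ∑ 2^(-k) (2^k y k)`. -/
def ST_GR : Prop := ∀ (E : Type u) [NormedAddCommGroup E] [NormedSpace ℝ E] [CompleteSpace E],
  (∀ x : ℕ → E, Tendsto x atTop (𝓝 0) → ∀ ε : ℝ, 0 < ε → ∃ T ∈ FR E, ∀ n, ‖T (x n) - x n‖ ≤ ε) →
    AP E

/-- YB: the space of a null sequence. `c n = 1 / sqrt ‖x n‖` (`n` if `x n = 0`... any `c n → ∞`,
`c n > 0`, with `c n • x n → 0`), `q : ℓ^1 → E`, `q a = ∑ a n c n x n` (`ℓ^1` over `ULift ℕ`, to be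
in `Type u`: `lp (fun _ : ULift.{u} ℕ => ℝ) 1`), `Y = ℓ^1 / ker q`, `j` induced (injective),
`y n = class of (1 / c n) δ_n`. `d i` countably many functionals of norm at most `1` separating the
points of the closed span of the `x n`, `M n = {y : d i (j y) = 0, i < n}`. Compactness: a bounded
sequence in `ℓ^1` has a coordinatewise convergent subsequence `a^(k) → a`, `‖a‖ ≤` the bound, and
`q (a^(k)) → q a` since `c n x n → 0`. This gives the norming and completeness clauses of `PP`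
and `JC`. An operator vanishing on `M m` is `∑_(i < m) d i (j ·) • e i`. -/
def ST_YB : Prop := ∀ (E : Type u) [NormedAddCommGroup E] [NormedSpace ℝ E] [CompleteSpace E]
  (x : ℕ → E), Tendsto x atTop (𝓝 0) →
  ∃ (Y : Type u) (_ : NormedAddCommGroup Y) (_ : NormedSpace ℝ Y) (M : ℕ → Submodule ℝ Y)
    (j : Y →L[ℝ] E) (y : ℕ → Y), CompleteSpace Y ∧ Antitone M ∧ PP Y M ∧ JC M j ∧
    Tendsto y atTop (𝓝 0) ∧ (∀ n, j (y n) = x n) ∧
    ∀ T ∈ VM E M, ∃ T' ∈ FR E, ∀ z, (T : Y →L[ℝ] E) z = T' (j z)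

/-- AL2: as row AL, for maps to another space `E`: `T x = a (mkQ x) - a 0` is linear and continuous,
a norm limit of operators `T_m x = a (mkQ_0 x, ..., mkQ_m x, 0, 0, ...) - a 0` (extended linearly),
which vanish on `M m`. -/
def ST_AL2 : Prop := ∀ (Y E : Type u) [NormedAddCommGroup Y] [NormedSpace ℝ Y]
  [NormedAddCommGroup E] [NormedSpace ℝ E]
  (M : ℕ → Submodule ℝ Y) (hM : Antitone M), PP Y M → IsCompact (XX hM) →
    ∀ a : XX hM → E, Continuous a → IsAffineOn (XX hM) a → ∃ T ∈ closure (VM E M),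
      ∀ x : Y, ‖x‖ ≤ 1 → ∀ φ ψ : XX hM, (φ : ∀ n, Y ⧸ M n) = (fun n => (M n).mkQ x) →
        (ψ : ∀ n, Y ⧸ M n) = 0 → (T : Y →L[ℝ] E) x = a φ - a ψ

/-- B2: `j ∘ f` is Baire-one. On the compact unit ball of `Y ⧸ M n` take a finite `1/(n+1)`-net
`v i` with lifts `y i`, `‖y i‖ ≤ 2`, weights `w i (v) = max 0 (1/(n+1) - ‖v - v i‖)`, and
`F n φ = j (∑ w i (φ n) y i / ∑ w i (φ n))`: it is continuous, `F n φ = j (z n)` with `‖z n‖ ≤ 2`
and `‖mkQ_n (z n) - φ n‖ ≤ 1/(n+1)`, so `mkQ_m (z n) → mkQ_m (f φ)` for all `m` and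
`F n φ → j (f φ)` by `JC`. -/
def ST_B2 : Prop := ∀ (Y E : Type u) [NormedAddCommGroup Y] [NormedSpace ℝ Y]
  [NormedAddCommGroup E] [NormedSpace ℝ E] (M : ℕ → Submodule ℝ Y) (hM : Antitone M)
  (j : Y →L[ℝ] E), PP Y M → JC M j → ∀ f : XX hM → Y,
    (∀ φ : XX hM, LimTo (φ : ∀ n, Y ⧸ M n) (f φ)) → IsBaireOne fun φ => j (f φ)

/-- GN2 (from XC, FL, B2, AL2): the limit map `f : XX → Y` exists, `j ∘ f` is affine and Baire-one,
so the limit of continuous affine `a i`; `T i x = a i (mkQ x) - a i 0 → j x`. -/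
def ST_GN2 : Prop := ∀ (Y E : Type u) [NormedAddCommGroup Y] [NormedSpace ℝ Y]
  [NormedAddCommGroup E] [NormedSpace ℝ E] (M : ℕ → Submodule ℝ Y) (j : Y →L[ℝ] E),
  Antitone M → PP Y M → JC M j → QP E →
    ∃ T : ℕ → Y →L[ℝ] E, (∀ i, T i ∈ closure (VM E M)) ∧
      ∀ x, Tendsto (fun i => T i x) atTop (𝓝 (j x))

/-- FN (from GR, YB, GN2): `QP E` implies `AP E`. On the null sequence `y n` of `Y` the operators
`T i` (uniformly bounded, Banach-Steinhaus) converge uniformly to `j`; take `i` with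
`‖T i (y n) - j (y n)‖ ≤ ε / 2` for all `n`, then an operator in `VM` near `T i`, then `T'`. -/
def ST_FN : Prop := ∀ (E : Type u) [NormedAddCommGroup E] [NormedSpace ℝ E] [CompleteSpace E],
  QP E → AP E

end Pool.Agent.Helper31.BQ
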