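import Pool.Agent.Helper61.BQ.GN
import Pool.Agent.Helper27.BQ.XC
import Pool.Agent.Helper13.BQ.FL
import Pool.Agent.Helper1.BQ.B1
import Pool.Agent.Helper88.BQ.UL
import Pool.Agent.Helper45.BQ.AL

set_option autoImplicit false

namespace Pool.Agent.Helper31.BQ

universe u

theorem allG : ST_GN.{u} :=
  Pool.Agent.Helper61.BQ.st_GN Pool.Agent.Helper27.BQ.st_XC Pool.Agent.Helper13.BQ.st_FL Pool.Agent.Helper1.BQ.st_B1 Pool.Agent.Helper88.BQ.st_UL Pool.Agent.Helper45.BQ.st_AL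

end Pool.Agent.Helper31.BQ
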