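import Pool.Agent.Helper31.BQ.AsmA
import Pool.Agent.Helper31.BQ.AllG
import Pool.Agent.Helper27.BQ.BA
import Pool.Agent.Helper34.BQ.SD
import Pool.Agent.Helper61.BQ.PD
import Pool.Agent.Helper2.BQ.CX
import Pool.Agent.Helper33.BQ.TF

set_option autoImplicit false

namespace Pool.Agent.Helper31.BQ

universe u

/-- separable duals: the property is the approximation property -/
theorem allA (𝕜 : Type) [RCLike 𝕜] {D E : Type u} [NormedAddCommGroup D] [NormedSpace 𝕜 D]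
    [NormedAddCommGroup E] [NormedSpace 𝕜 E] [NormedSpace ℝ E] [IsScalarTower ℝ 𝕜 E]
    [TopologicalSpace.SeparableSpace E] (e : E ≃L[𝕜] StrongDual 𝕜 D) :
    QP E ↔ APk 𝕜 E :=
  asmA allG Pool.Agent.Helper27.BQ.st_BA Pool.Agent.Helper34.BQ.st_SD Pool.Agent.Helper61.BQ.st_PD Pool.Agent.Helper2.BQ.st_CX Pool.Agent.Helper33.BQ.st_TF 𝕜 e

end Pool.Agent.Helper31.BQ
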