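import Pool.Agent.Helper31.BQ.AsmB
import Pool.Agent.Helper31.BQ.AllG
import Pool.Agent.Helper73.BQ.HO
import Pool.Agent.Helper90.BQ.WA
import Pool.Agent.Helper96.BQ.SG
import Pool.Agent.Helper59.BQ.CM
import Pool.Agent.Helper53.BQ.SL
import Pool.Agent.Helper47.BQ.CL
import Pool.Agent.Helper98.BQ.HP
import Pool.Agent.Helper74.BQ.WK
import Pool.Agent.Helper15.BQ.PE
import Pool.Agent.Helper12.BQ.DG
import Pool.Agent.Helper21.BQ.CP
import Pool.Agent.Helper25.BQ.EX
import Pool.Agent.Helper64.BQ.BD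
import Pool.Agent.Helper77.BQ.BI
import Pool.Agent.Helper32.BQ.BF
import Pool.Agent.Helper36.BQ.NA

set_option autoImplicit false

namespace Pool.Agent.Helper31.BQ

theorem allCM : ST_CM := Pool.Agent.Helper59.BQ.st_CM Pool.Agent.Helper73.BQ.st_HO (Pool.Agent.Helper96.BQ.st_SG Pool.Agent.Helper73.BQ.st_HO Pool.Agent.Helper90.BQ.st_WA)

theorem allPE : ST_PE := Pool.Agent.Helper15.BQ.PE Pool.Agent.Helper98.BQ.st_HP Pool.Agent.Helper74.BQ.st_WK

theorem allCP : ST_CP := Pool.Agent.Helper21.BQ.st_CP Pool.Agent.Helper47.BQ.st_CL Pool.Agent.Helper12.BQ.st_DG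

theorem allNA : ST_NA := Pool.Agent.Helper36.BQ.st_NA Pool.Agent.Helper25.BQ.st_EX Pool.Agent.Helper64.BQ.st_BD Pool.Agent.Helper77.BQ.st_BI Pool.Agent.Helper32.BQ.st_BF

/-- a space with the compact approximation property for which the property fails -/
theorem allB : ∃ (E : Type) (_ : NormedAddCommGroup E) (_ : NormedSpace ℝ E), CompleteSpace E ∧
    TopologicalSpace.SeparableSpace E ∧ CAP E ∧ ¬ QP E :=
  asmB allG Pool.Agent.Helper53.BQ.st_SL allCM Pool.Agent.Helper47.BQ.st_CL allPE allCP allNA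

end Pool.Agent.Helper31.BQ
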