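import Pool.Agent.Helper31.BQ.Stmts2
import Pool.Agent.Helper40.BaireAffine4

set_option autoImplicit false

namespace Pool.Agent.Helper31.BQ

open Filter Topology

universe u

/-- part A: separable duals -/
theorem asmA (hGN : ST_GN.{u}) (hBA : ST_BA.{u}) (hSD : ST_SD.{u}) (hPD : ST_PD.{u})
    (hCX : ST_CX.{u}) (hTF : ST_TF.{u})
    (𝕜 : Type) [RCLike 𝕜] {D E : Type u} [NormedAddCommGroup D] [NormedSpace 𝕜 D]
    [NormedAddCommGroup E] [NormedSpace 𝕜 E] [NormedSpace ℝ E] [IsScalarTower ℝ 𝕜 E]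
    [TopologicalSpace.SeparableSpace E] (e : E ≃L[𝕜] StrongDual 𝕜 D) :
    QP E ↔ APk 𝕜 E := by
  constructor
  · intro hQ
    have hsep : TopologicalSpace.SeparableSpace (StrongDual 𝕜 D) :=
      e.surjective.denseRange.separableSpace e.continuous
    have hD := hSD 𝕜 D hsep
    obtain ⟨M, hM, hP⟩ := hPD 𝕜 D hD
    let e' : E ≃L[ℝ] StrongDual 𝕜 D :=
      { e.toLinearEquiv.restrictScalars ℝ with
        continuous_toFun := e.continuous
        continuous_invFun := e.symm.continuous }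
    have hQ' : QP (StrongDual 𝕜 D) := (hTF E (StrongDual 𝕜 D) e').1 hQ
    obtain ⟨T, hT1, hT2⟩ := hGN (StrongDual 𝕜 D) M hM hP hQ'
    have hAP : AP (StrongDual 𝕜 D) := hBA (StrongDual 𝕜 D) T hT1 hT2
    exact (hCX 𝕜 E).1 ((hTF (StrongDual 𝕜 D) E e'.symm).2 hAP)
  · intro hA V _ _ _ _ _ _ _ X hX hXc f hf hf1
    have hAP : Pool.Agent.Helper40.BaireAffine.HasAP ℝ E := by
      intro K hK ε hε
      obtain ⟨T, hT1, hT2⟩ := hA K hK ε hε
      refine ⟨T.restrictScalars ℝ, ?_, fun x hx => hT2 x hx⟩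
      have : FiniteDimensional ℝ (LinearMap.range (T : E →ₗ[𝕜] E)) :=
        FiniteDimensional.trans ℝ 𝕜 _
      exact this
    obtain ⟨h, hc, hh⟩ := hf1
    exact Pool.Agent.Helper40.BaireAffine.main_real hX hXc hAP f hf h hc hh

end Pool.Agent.Helper31.BQ
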