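import Pool.Agent.Helper31.BQ.Stmts2

set_option autoImplicit false

namespace Pool.Agent.Helper31.BQ

open Filter Topology

/-- part B: a space with the compact approximation property for which the property fails -/
theorem asmB (hGN : ST_GN.{0}) (hSL : ST_SL) (hCM : ST_CM) (hCL : ST_CL) (hPE : ST_PE)
    (hCP : ST_CP) (hNA : ST_NA) :
    ∃ (E : Type) (_ : NormedAddCommGroup E) (_ : NormedSpace ℝ E), CompleteSpace E ∧
      TopologicalSpace.SeparableSpace E ∧ CAP E ∧ ¬ QP E := by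
  obtain ⟨H, _, _, J, e, w, S, T, hc, hs, hS⟩ := hSL
  obtain ⟨σ, τ, δ, hC⟩ := hCM
  obtain ⟨h1, h2, h3⟩ := hCL H J σ τ
  obtain ⟨M, hM, hP⟩ := hPE H J σ τ
  refine ⟨EE J σ τ, inferInstance, inferInstance, h2, h3, hCP H J e w S T hS σ τ, fun hQ => ?_⟩
  exact hNA H J e w S T hS σ τ δ hC h2 (hGN (EE J σ τ) M hM hP hQ)

end Pool.Agent.Helper31.BQ
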