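import Pool.Agent.Helper31.BQ.Stmts3
import Pool.Agent.Helper40.BaireAffine4

set_option autoImplicit false

namespace Pool.Agent.Helper31.BQ

open Filter Topology

universe u

/-- every Banach space -/
theorem asmE (hFN : ST_FN.{u}) (hCX : ST_CX.{u})
    (𝕜 : Type) [RCLike 𝕜] (E : Type u)
    [NormedAddCommGroup E] [NormedSpace 𝕜 E] [NormedSpace ℝ E] [IsScalarTower ℝ 𝕜 E]
    [CompleteSpace E] :
    QP E ↔ APk 𝕜 E := by
  constructor
  · intro hQ
    exact (hCX 𝕜 E).1 (hFN E hQ)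
  · intro hA V _ _ _ _ _ _ _ X hX hXc f hf hf1
    have hAP : Pool.Agent.Helper40.BaireAffine.HasAP ℝ E := by
      intro K hK ε hε
      obtain ⟨T, hT1, hT2⟩ := hA K hK ε hε
      refine ⟨T.restrictScalars ℝ, ?_, fun x hx => hT2 x hx⟩
      have : FiniteDimensional ℝ (LinearMap.range (T : E →ₗ[𝕜] E)) :=
        FiniteDimensional.trans ℝ 𝕜 _
      exact this
    obtain ⟨h, hc, hh⟩ := hf1
    exact Pool.Agent.Helper40.BaireAffine.main_real hX hXc hAP f hf h hc hh

end Pool.Agent.Helper31.BQ
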