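import Mathlib

/-!
# Affine Baire-one maps: statements of the rows (part A)
-/

set_option autoImplicit false

namespace Pool.Agent.Helper31.BQ

open Filter Topology

universe u

/-- `f : X → E` is affine on the convex set `X` -/
def IsAffineOn {V E : Type*} [AddCommGroup V] [Module ℝ V] [AddCommGroup E] [Module ℝ E]
    (X : Set V) (f : X → E) : Prop :=
  ∀ (x y z : X) (t : ℝ), 0 ≤ t → t ≤ 1 →
    (z : V) = t • (x : V) + (1 - t) • (y : V) → f z = t • f x + (1 - t) • f y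

/-- first Baire class -/
def IsBaireOne {X E : Type*} [TopologicalSpace X] [TopologicalSpace E] (f : X → E) : Prop :=
  ∃ F : ℕ → X → E, (∀ n, Continuous (F n)) ∧ ∀ x, Tendsto (fun n => F n x) atTop (𝓝 (f x))

/-- pointwise limit of a sequence of continuous affine maps -/
def IsAffineBaireOne {V E : Type*} [AddCommGroup V] [Module ℝ V] [TopologicalSpace V]
    [AddCommGroup E] [Module ℝ E] [TopologicalSpace E] (X : Set V) (f : X → E) : Prop :=
  ∃ F : ℕ → X → E, (∀ n, Continuous (F n) ∧ IsAffineOn X (F n)) ∧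
    ∀ x, Tendsto (fun n => F n x) atTop (𝓝 (f x))

/-- every affine Baire-one map from a compact convex set to `E` is a pointwise limit of a sequence
of continuous affine maps -/
def QP (E : Type u) [NormedAddCommGroup E] [NormedSpace ℝ E] : Prop :=
  ∀ (V : Type u) [AddCommGroup V] [Module ℝ V] [TopologicalSpace V]
    [IsTopologicalAddGroup V] [ContinuousSMul ℝ V] [T2Space V] [LocallyConvexSpace ℝ V]
    (X : Set V), IsCompact X → Convex ℝ X → ∀ f : X → E, IsAffineOn X f → IsBaireOne f →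
      IsAffineBaireOne X f

/-- the approximation property -/
def AP (E : Type*) [NormedAddCommGroup E] [NormedSpace ℝ E] : Prop :=
  ∀ K : Set E, IsCompact K → ∀ ε : ℝ, 0 < ε →
    ∃ T : E →L[ℝ] E, FiniteDimensional ℝ (LinearMap.range (T : E →ₗ[ℝ] E)) ∧
      ∀ x ∈ K, ‖T x - x‖ < ε

/-- the compact approximation property -/
def CAP (E : Type*) [NormedAddCommGroup E] [NormedSpace ℝ E] : Prop :=
  ∀ K : Set E, IsCompact K → ∀ ε : ℝ, 0 < ε →
    ∃ T : E →L[ℝ] E, IsCompactOperator T ∧ ∀ x ∈ K, ‖T x - x‖ < ε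

/-- operators of finite rank -/
def FR (E : Type*) [NormedAddCommGroup E] [NormedSpace ℝ E] : Set (E →L[ℝ] E) :=
  {T | FiniteDimensional ℝ (LinearMap.range (T : E →ₗ[ℝ] E))}

/-- a decreasing sequence of closed subspaces of finite codimension, norming and complete -/
def PP (E : Type*) [NormedAddCommGroup E] [NormedSpace ℝ E] (M : ℕ → Submodule ℝ E) : Prop :=
  (∀ n, IsClosed (M n : Set E)) ∧ (∀ n, FiniteDimensional ℝ (E ⧸ M n)) ∧
  (∀ x : E, ∀ ε : ℝ, 0 < ε → ∃ n, ∀ y : E, x - y ∈ M n → ‖x‖ - ε ≤ ‖y‖) ∧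
  ∀ (x : ℕ → E) (C : ℝ), (∀ j, ‖x j‖ ≤ C) →
    (∀ m, ∃ v : E ⧸ M m, Tendsto (fun j => (M m).mkQ (x j)) atTop (𝓝 v)) →
    ∃ y : E, ∀ m, Tendsto (fun j => (M m).mkQ (x j)) atTop (𝓝 ((M m).mkQ y))

/-- the transition maps -/
noncomputable def rs {E : Type*} [NormedAddCommGroup E] [NormedSpace ℝ E] {M : ℕ → Submodule ℝ E}
    (hM : Antitone M) (n : ℕ) : (E ⧸ M (n + 1)) →ₗ[ℝ] (E ⧸ M n) :=
  (M (n + 1)).mapQ (M n) LinearMap.id (fun _ hx => hM (Nat.le_succ n) hx)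

/-- the compact convex set -/
def XX {E : Type*} [NormedAddCommGroup E] [NormedSpace ℝ E] {M : ℕ → Submodule ℝ E}
    (hM : Antitone M) : Set (∀ n, E ⧸ M n) :=
  {φ | (∀ n, ‖φ n‖ ≤ 1) ∧ ∀ N, ∑ n ∈ Finset.range N, ‖rs hM n (φ (n + 1)) - φ n‖ ≤ 1}

/-- `φ` converges to `y` -/
def LimTo {E : Type*} [NormedAddCommGroup E] [NormedSpace ℝ E] {M : ℕ → Submodule ℝ E}
    (φ : ∀ n, E ⧸ M n) (y : E) : Prop :=
  Tendsto (fun n => ‖(M n).mkQ y - φ n‖) atTop (𝓝 0)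

/-- XC: compact (Tychonoff, finite-dimensional blocks) and convex; `T2`, locally convex. -/
def ST_XC : Prop := ∀ (E : Type u) [NormedAddCommGroup E] [NormedSpace ℝ E]
  (M : ℕ → Submodule ℝ E) (hM : Antitone M), PP E M →
    IsCompact (XX hM) ∧ Convex ℝ (XX hM) ∧ T2Space (∀ n, E ⧸ M n) ∧
      LocallyConvexSpace ℝ (∀ n, E ⧸ M n) ∧ IsTopologicalAddGroup (∀ n, E ⧸ M n) ∧
      ContinuousSMul ℝ (∀ n, E ⧸ M n)

/-- FL: limits exist and are unique. Lift `φ n` to `x n` with `‖x n‖ ≤ 2`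
(`Submodule.Quotient.norm_mk_lt`); `mkQ_m (x j)` is Cauchy in `j` (telescoping, the transition maps
are contractions), use the last part of `PP`; `‖mkQ_m y - φ m‖ ≤` tail of the convergent series.
Uniqueness: third part of `PP` for `y - y'`. -/
def ST_FL : Prop := ∀ (E : Type u) [NormedAddCommGroup E] [NormedSpace ℝ E]
  (M : ℕ → Submodule ℝ E) (hM : Antitone M), PP E M →
    (∀ φ ∈ XX hM, ∃ y : E, LimTo φ y) ∧ ∀ (φ : ∀ n, E ⧸ M n) (y y' : E), LimTo φ y → LimTo φ y' → y = y'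

/-- B1: up to `ε` the limit map is Baire-one. `x k` dense in `E`; continuous weights
`u k n φ = min 1 (max 0 (2 - ‖φ n - mkQ_n (x k)‖ / ε'))`, `w k = u k ∏_(i < k) (1 - u i)`,
`g_n φ = ∑_(k < n) w k n φ • x k`; since `‖φ n - mkQ_n (x k)‖ → ‖f φ - x k‖` (norming), the limit
exists (some `u k n φ = 1` for large `n`) and is within `2 ε'` of `f φ`. -/
def ST_B1 : Prop := ∀ (E : Type u) [NormedAddCommGroup E] [NormedSpace ℝ E]
  [TopologicalSpace.SeparableSpace E] (M : ℕ → Submodule ℝ E) (hM : Antitone M), PP E M →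
    ∀ f : XX hM → E, (∀ φ : XX hM, LimTo (φ : ∀ n, E ⧸ M n) (f φ)) →
      ∀ ε : ℝ, 0 < ε → ∃ g : XX hM → E, IsBaireOne g ∧ ∀ φ, ‖g φ - f φ‖ ≤ ε

/-- UL: uniform limits of Baire-one maps are Baire-one (`g_0 + ∑ (g_(i+1) - g_i)`, the
approximations of `g_(i+1) - g_i` retracted to a ball of radius `C 2^(-i)`). -/
def ST_UL : Prop := ∀ (X : Type u) [TopologicalSpace X] (E : Type u) [NormedAddCommGroup E]
  [NormedSpace ℝ E] (f : X → E),
    (∀ ε : ℝ, 0 < ε → ∃ g : X → E, IsBaireOne g ∧ ∀ x, ‖g x - f x‖ ≤ ε) → IsBaireOne f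

/-- AL: a continuous affine map `a` on `XX` gives on constants a linear operator in the closure of
the finite rank operators. `T x = a (mkQ x) - a 0` is additive and homogeneous on the ball;
`T_m x = 2 (a (1/2 (mkQ_0 x, ..., mkQ_m x, 0, 0, ...)) - a 0)` has finite rank (it depends only on
`mkQ_m x`; the truncated point is in `XX`), and `T_m → T` in norm since `a` is uniformly continuous
on the compact set `XX`. -/
def ST_AL : Prop := ∀ (E : Type u) [NormedAddCommGroup E] [NormedSpace ℝ E]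
  (M : ℕ → Submodule ℝ E) (hM : Antitone M), PP E M → IsCompact (XX hM) →
    ∀ a : XX hM → E, Continuous a → IsAffineOn (XX hM) a → ∃ T ∈ closure (FR E),
      ∀ x : E, ‖x‖ ≤ 1 → ∀ φ ψ : XX hM, (φ : ∀ n, E ⧸ M n) = (fun n => (M n).mkQ x) →
        (ψ : ∀ n, E ⧸ M n) = 0 → (T : E →L[ℝ] E) x = a φ - a ψ

/-- GN (from XC, FL, B1, UL, AL): the limit map `f` is affine and Baire-one; `T_i x → x`. -/
def ST_GN : Prop := ∀ (E : Type u) [NormedAddCommGroup E] [NormedSpace ℝ E]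
  [TopologicalSpace.SeparableSpace E] (M : ℕ → Submodule ℝ E), Antitone M → PP E M → QP E →
    ∃ T : ℕ → E →L[ℝ] E, (∀ i, T i ∈ closure (FR E)) ∧
      ∀ x, Tendsto (fun i => T i x) atTop (𝓝 x)

/-- BA: Banach-Steinhaus, compactness, and approximation by finite rank -/
def ST_BA : Prop := ∀ (E : Type u) [NormedAddCommGroup E] [NormedSpace ℝ E] [CompleteSpace E]
  (T : ℕ → E →L[ℝ] E), (∀ i, T i ∈ closure (FR E)) →
    (∀ x, Tendsto (fun i => T i x) atTop (𝓝 x)) → AP E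

/-- SD: a normed space with separable dual is separable (choose for a dense sequence `x k` of the
dual unit vectors `d k` with `‖x k (d k)‖ ≥ ‖x k‖ / 2`; their span is dense by Hahn-Banach). -/
def ST_SD : Prop := ∀ (𝕜 : Type) [RCLike 𝕜] (D : Type u) [NormedAddCommGroup D] [NormedSpace 𝕜 D],
  TopologicalSpace.SeparableSpace (StrongDual 𝕜 D) → TopologicalSpace.SeparableSpace D

/-- PD: `M n` = functionals vanishing at the first `n` vectors of a dense sequence of `D` -/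
def ST_PD : Prop := ∀ (𝕜 : Type) [RCLike 𝕜] (D : Type u) [NormedAddCommGroup D] [NormedSpace 𝕜 D],
  TopologicalSpace.SeparableSpace D →
    ∃ M : ℕ → Submodule ℝ (StrongDual 𝕜 D), Antitone M ∧ PP (StrongDual 𝕜 D) M

/-- the approximation property over `𝕜` -/
def APk (𝕜 : Type) [RCLike 𝕜] (E : Type*) [NormedAddCommGroup E] [NormedSpace 𝕜 E] : Prop :=
  ∀ K : Set E, IsCompact K → ∀ ε : ℝ, 0 < ε →
    ∃ T : E →L[𝕜] E, FiniteDimensional 𝕜 (LinearMap.range (T : E →ₗ[𝕜] E)) ∧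
      ∀ x ∈ K, ‖T x - x‖ < ε

/-- CX: real and complex approximation property. For `𝕜 = ℂ`: `T' x = (T x - i T (i x)) / 2`, with
`T` good on the compact set `K ∪ i K`. (Uniformly: `RCLike.I`; if `I = 0` then `𝕜 = ℝ`.) -/
def ST_CX : Prop := ∀ (𝕜 : Type) [RCLike 𝕜] (E : Type u) [NormedAddCommGroup E] [NormedSpace 𝕜 E]
  [NormedSpace ℝ E] [IsScalarTower ℝ 𝕜 E], AP E ↔ APk 𝕜 E

/-- TF: invariance under linear homeomorphisms -/
def ST_TF : Prop := ∀ (E F : Type u) [NormedAddCommGroup E] [NormedSpace ℝ E]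
  [NormedAddCommGroup F] [NormedSpace ℝ F], (E ≃L[ℝ] F) → (QP E → QP F) ∧ (AP E → AP F)

/-! ### part B: the concrete space -/

/-- index sets, `2 ^ (k + 2)` elements -/
abbrev GG (k : ℕ) : Type := Fin (k + 2) → Bool

/-- combinatorial data -/
def CO (σ : ∀ k, Fin (2 ^ k) → GG k → ℝ) (τ : ∀ k, Fin (2 ^ (k + 1)) → GG k → ℝ)
    (δ : ℕ → ℝ) : Prop :=
  (∀ k i g, |σ k i g| = 1) ∧ (∀ k i g, |τ k i g| = 1) ∧
  (∀ k i i', ∑ g, σ k i g * σ k i' g = if i = i' then (2 : ℝ) ^ (k + 2) else 0) ∧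
  (∀ k i i', ∑ g, τ k i g * τ k i' g = if i = i' then (2 : ℝ) ^ (k + 2) else 0) ∧
  (∀ k i j, ∑ g, σ k i g * τ k j g = 0) ∧
  (∀ k g h, |((2 : ℝ) ^ k)⁻¹ * ∑ i, σ k i g * σ k i h -
    ((2 : ℝ) ^ (k + 1))⁻¹ * ∑ j, τ k j g * τ k j h| ≤ δ k) ∧
  (∀ k g h, |((2 : ℝ) ^ (k + 1))⁻¹ * ∑ j, τ k j g * σ (k + 1) j h| ≤ δ k) ∧
  (∀ k, 0 ≤ δ k) ∧ Summable fun k : ℕ => ((k : ℝ) + 4) * δ k

/-- HO: a selection with small sums. Exponential moments: for each `g` and sign the average over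
all `ω` of `exp (s ∑ i, v i (ω i) g)` is at most `exp (s^2 |I| / 2)` (`|v| ≤ 1`, mean zero,
`exp (s v) ≤ cosh s + v sinh s`, `cosh s ≤ exp (s^2/2)`), take `s = sqrt (2 log (2 |G|) / |I|)`. -/
def ST_HO : Prop := ∀ (I O G : Type) [Fintype I] [Fintype O] [Nonempty O] [Fintype G] [Nonempty G]
  (v : I → O → G → ℝ), (∀ i o g, |v i o g| ≤ 1) → (∀ i g, ∑ o, v i o g = 0) →
    ∃ ω : I → O, ∀ g, |∑ i, v i (ω i) g| ≤
      2 * Real.sqrt ((Fintype.card I : ℝ) * Real.log (2 * (Fintype.card G : ℝ)))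

/-- WA: an orthogonal family of signs (Walsh functions) on `GG k` -/
def ST_WA : Prop := ∀ k : ℕ, ∃ W : Fin (2 ^ (k + 2)) → GG k → ℝ, (∀ i g, |W i g| = 1) ∧
  ∀ i j, ∑ g, W i g * W j g = if i = j then (2 : ℝ) ^ (k + 2) else 0

/-- SG: split a family of `3 * 2^k` orthogonal sign functions into `σ` and `τ` (one of each of
`2^k` triples goes to `σ`; from WA and HO with `O = Fin 3`, `G = GG k × GG k`, `v` = quarter of
`2 W_o(g) W_o(h) - ` the other two). -/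
def ST_SG : Prop := ∃ C : ℝ, ∀ k : ℕ, ∃ (σ : Fin (2 ^ k) → GG k → ℝ)
    (τ : Fin (2 ^ (k + 1)) → GG k → ℝ),
  (∀ i g, |σ i g| = 1) ∧ (∀ i g, |τ i g| = 1) ∧
  (∀ i i', ∑ g, σ i g * σ i' g = if i = i' then (2 : ℝ) ^ (k + 2) else 0) ∧
  (∀ i i', ∑ g, τ i g * τ i' g = if i = i' then (2 : ℝ) ^ (k + 2) else 0) ∧
  (∀ i j, ∑ g, σ i g * τ j g = 0) ∧
  ∀ g h, |((2 : ℝ) ^ k)⁻¹ * ∑ i, σ i g * σ i h -
    ((2 : ℝ) ^ (k + 1))⁻¹ * ∑ j, τ j g * τ j h| ≤ C * ((k : ℝ) + 1) * (Real.sqrt 2)⁻¹ ^ k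

/-- CM (from HO, SG): all the data. Choose signs `e` for `σ (k + 1)` by HO with `O = Bool`
(`G = GG k × GG (k + 1)`), successively; a change of signs keeps the properties of SG. -/
def ST_CM : Prop := ∃ (σ : ∀ k, Fin (2 ^ k) → GG k → ℝ) (τ : ∀ k, Fin (2 ^ (k + 1)) → GG k → ℝ)
  (δ : ℕ → ℝ), CO σ τ δ

/-- the scale data on a Hilbert space `H` -/
def SCL (H : Type) [NormedAddCommGroup H] [InnerProductSpace ℝ H] (J : ℕ → H →L[ℝ] H)
    (e : ℕ → H) (w : H) (S : ℕ → H →L[ℝ] H) (T : ℕ → ℕ → H →L[ℝ] H) : Prop :=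
  ‖w‖ = 1 ∧ (∀ k, ‖J k‖ ≤ 1) ∧ (∀ k, J k (e k) = w) ∧ (∀ k, ‖e k‖ ≤ (k : ℝ) + 2) ∧
  (∀ n k, (J k).comp (T n k) = (S n).comp (J k)) ∧ (∀ n k, ‖T n k‖ ≤ 1) ∧
  (∀ n k, FiniteDimensional ℝ (LinearMap.range (T n k : H →ₗ[ℝ] H))) ∧
  (∀ n, Tendsto (fun k => ‖T n k‖) atTop (𝓝 0)) ∧
  ∀ k x, Tendsto (fun n => T n k x) atTop (𝓝 x)

/-- SL: the scale exists: `H = L^2 [0,1]` (`Lp ℝ 2 (volume.restrict (Set.Ioc 0 1))`), `w = 1`,
`J k` = multiplication by `(k+2)^(-(1-t))`, `e k = (k+2)^(1-t)`. With `n + 1` intervals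
`[i/(n+1), (i+1)/(n+1))`: `(T n k x)(t) = (n+1) ∫_(previous interval) (k+2)^(-(t-s)) x(s) ds`
(`0` on the first interval) `= ∑ i, ⟪a i, x⟫ b i`, the `a i` have disjoint supports, the `b i` too,
`‖a i‖ ‖b i‖ ≤ min 1 ((n+1)/(2 log (k+2)))`; `S n` is the same with weight `1`. -/
def ST_SL : Prop := ∃ (H : Type) (_ : NormedAddCommGroup H) (_ : InnerProductSpace ℝ H)
  (J : ℕ → H →L[ℝ] H) (e : ℕ → H) (w : H) (S : ℕ → H →L[ℝ] H) (T : ℕ → ℕ → H →L[ℝ] H),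
  CompleteSpace H ∧ TopologicalSpace.SeparableSpace H ∧ SCL H J e w S T

/-- the big space -/
abbrev WW (H : Type) [NormedAddCommGroup H] : Type := lp (fun k : ℕ => (GG k → H)) 2

/-- the constraint -/
def Con {H : Type} [NormedAddCommGroup H] [InnerProductSpace ℝ H] (J : ℕ → H →L[ℝ] H)
    (σ : ∀ k, Fin (2 ^ k) → GG k → ℝ) (τ : ∀ k, Fin (2 ^ (k + 1)) → GG k → ℝ)
    (x : ∀ k, GG k → H) : Prop :=
  ∀ (k : ℕ) (j : Fin (2 ^ (k + 1))),
    ((2 : ℝ) ^ (k + 2))⁻¹ • ∑ g, τ k j g • J k (x k g) =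
      ((2 : ℝ) ^ (k + 3))⁻¹ • ∑ h, σ (k + 1) j h • J (k + 1) (x (k + 1) h)

/-- the space `E` -/
def EE {H : Type} [NormedAddCommGroup H] [InnerProductSpace ℝ H] (J : ℕ → H →L[ℝ] H)
    (σ : ∀ k, Fin (2 ^ k) → GG k → ℝ) (τ : ∀ k, Fin (2 ^ (k + 1)) → GG k → ℝ) :
    Submodule ℝ (WW H) where
  carrier := {x | Con J σ τ (x : ∀ k, GG k → H)}
  zero_mem' := by
    intro k j
    simp
  add_mem' := by
    intro x y hx hy k j
    have h1 := hx k j
    have h2 := hy k j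
    simp only [lp.coeFn_add, Pi.add_apply, map_add, smul_add, Finset.sum_add_distrib]
    rw [h1, h2]
  smul_mem' := by
    intro c x hx k j
    have h1 := hx k j
    simp only [lp.coeFn_smul, Pi.smul_apply, map_smul]
    simp only [smul_comm _ c, ← Finset.smul_sum]
    rw [h1]

end Pool.Agent.Helper31.BQ
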