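import Pool.Agent.Helper31.BQ.Stmts

/-!
# Affine Baire-one maps: statements of the rows (part B, the space `EE`)
-/

set_option autoImplicit false

namespace Pool.Agent.Helper31.BQ

open Filter Topology

section
variable {H : Type} [NormedAddCommGroup H] [InnerProductSpace ℝ H]

/-- the coordinates -/
def cd (x : WW H) (k : ℕ) (g : GG k) : H := (x : ∀ k, GG k → H) k g

/-- elements `ξ k j`: `τ k j g • e k` on block `k`, `σ (k+1) j h • e (k+1)` on block `k + 1` -/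
def IsEl (e : ℕ → H) (J : ℕ → H →L[ℝ] H)
    (σ : ∀ k, Fin (2 ^ k) → GG k → ℝ) (τ : ∀ k, Fin (2 ^ (k + 1)) → GG k → ℝ)
    (ξ : ∀ k, Fin (2 ^ (k + 1)) → EE J σ τ) : Prop :=
  ∀ k j, (∀ g, cd (ξ k j : WW H) k g = τ k j g • e k) ∧
    (∀ h, cd (ξ k j : WW H) (k + 1) h = σ (k + 1) j h • e (k + 1)) ∧
    ∀ l, l ≠ k → l ≠ k + 1 → ∀ g, cd (ξ k j : WW H) l g = 0

/-- the functionals `β` -/
noncomputable def bt (w : H) (J : ℕ → H →L[ℝ] H)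
    (σ : ∀ k, Fin (2 ^ k) → GG k → ℝ) (τ : ∀ k, Fin (2 ^ (k + 1)) → GG k → ℝ)
    (ξ : ∀ k, Fin (2 ^ (k + 1)) → EE J σ τ) (k : ℕ) (T : EE J σ τ →L[ℝ] EE J σ τ) : ℝ :=
  ((2 : ℝ) ^ (k + 1))⁻¹ * ∑ j, ((2 : ℝ) ^ (k + 2))⁻¹ *
    ∑ g, τ k j g * inner ℝ w (J k (cd (T (ξ k j) : WW H) k g))

end

/-- CL: `EE` is closed in the complete space `WW`; separable if `H` is (elements with finitely many
nonzero blocks in a countable dense set are dense in `WW`). -/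
def ST_CL : Prop := ∀ (H : Type) [NormedAddCommGroup H] [InnerProductSpace ℝ H] [CompleteSpace H]
  [TopologicalSpace.SeparableSpace H] (J : ℕ → H →L[ℝ] H)
  (σ : ∀ k, Fin (2 ^ k) → GG k → ℝ) (τ : ∀ k, Fin (2 ^ (k + 1)) → GG k → ℝ),
    IsClosed (EE J σ τ : Set (WW H)) ∧ CompleteSpace (EE J σ τ) ∧
      TopologicalSpace.SeparableSpace (EE J σ τ)

/-- HP: finite-dimensional projections of a separable Hilbert space -/
def ST_HP : Prop := ∀ (H : Type) [NormedAddCommGroup H] [InnerProductSpace ℝ H] [CompleteSpace H]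
  [TopologicalSpace.SeparableSpace H], ∃ p : ℕ → H →L[ℝ] H,
    (∀ n, FiniteDimensional ℝ (LinearMap.range (p n : H →ₗ[ℝ] H))) ∧ (∀ n, ‖p n‖ ≤ 1) ∧
    (∀ n x y, inner ℝ (p n x) y = inner ℝ x (p n y)) ∧
    (∀ n m x, n ≤ m → p n (p m x) = p n x) ∧
    (∀ n m x, n ≤ m → p m (p n x) = p n x) ∧ ∀ x, Tendsto (fun n => p n x) atTop (𝓝 x)

/-- WK: weak limits in a Hilbert space: if `x j` is bounded and every `p m (x j)` converges, there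
is `y` with `⟪z, x j⟫ → ⟪z, y⟫` for all `z` and `p m (x j) → p m y` (the limits `v m` of
`p m (x j)` are bounded with `p m (v m') = v m`, orthogonal increments: `v m → y`). -/
def ST_WK : Prop := ∀ (H : Type) [NormedAddCommGroup H] [InnerProductSpace ℝ H] [CompleteSpace H]
  (p : ℕ → H →L[ℝ] H), (∀ n, ‖p n‖ ≤ 1) →
    (∀ n x y, inner ℝ (p n x) y = inner ℝ x (p n y)) →
    (∀ n m x, n ≤ m → p n (p m x) = p n x) →
    (∀ n m x, n ≤ m → p m (p n x) = p n x) → (∀ x, Tendsto (fun n => p n x) atTop (𝓝 x)) →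
    ∀ (x : ℕ → H) (C : ℝ), (∀ j, ‖x j‖ ≤ C) → (∀ m, ∃ v, Tendsto (fun j => p m (x j)) atTop (𝓝 v)) →
      ∃ y : H, (∀ z, Tendsto (fun j => inner ℝ z (x j)) atTop (𝓝 (inner ℝ z y))) ∧
        ∀ m, Tendsto (fun j => p m (x j)) atTop (𝓝 (p m y))

/-- PE (from HP, WK): `M n` = elements with `p n (cd x k g) = 0` for all `k < n` and all `g`. The
truncation `C_n x` (`p n` on the coordinates of the blocks `k < n`, `0` on the others) is a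
contraction of `WW` and `C_n x → x`, so `M n` is norming; for the last part take the weak limits
`y k g` of the coordinates: `∑_(k < K) (max_g ‖y k g‖)^2 ≤ C^2` (lower semicontinuity), so
`y ∈ WW`, and the constraint passes to weak limits (`J k` is bounded). -/
def ST_PE : Prop := ∀ (H : Type) [NormedAddCommGroup H] [InnerProductSpace ℝ H] [CompleteSpace H]
  [TopologicalSpace.SeparableSpace H] (J : ℕ → H →L[ℝ] H)
  (σ : ∀ k, Fin (2 ^ k) → GG k → ℝ) (τ : ∀ k, Fin (2 ^ (k + 1)) → GG k → ℝ),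
    ∃ M : ℕ → Submodule ℝ (EE J σ τ), Antitone M ∧ PP (EE J σ τ) M

/-- DG: a diagonal operator on `WW`: `T k` acting on the coordinates of block `k`, norm at most
`sup ‖T k‖`; it is compact if the `T k` have finite rank and `‖T k‖ → 0` -/
def ST_DG : Prop := ∀ (H : Type) [NormedAddCommGroup H] [InnerProductSpace ℝ H] [CompleteSpace H]
  (T : ℕ → H →L[ℝ] H), (∀ k, ‖T k‖ ≤ 1) → ∃ D : WW H →L[ℝ] WW H,
    (∀ x k g, cd (D x) k g = T k (cd x k g)) ∧ ‖D‖ ≤ 1 ∧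
    ((∀ k, FiniteDimensional ℝ (LinearMap.range (T k : H →ₗ[ℝ] H))) →
      Tendsto (fun k => ‖T k‖) atTop (𝓝 0) → IsCompactOperator D)

/-- CP (from CL, DG): the diagonal operators `D n` of `T n k` map `EE` to itself
(`J k ∘ T n k = S n ∘ J k`), are compact contractions and `D n x → x`; on a compact set this is
uniform. -/
def ST_CP : Prop := ∀ (H : Type) [NormedAddCommGroup H] [InnerProductSpace ℝ H] [CompleteSpace H]
  [TopologicalSpace.SeparableSpace H] (J : ℕ → H →L[ℝ] H) (e : ℕ → H) (w : H)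
  (S : ℕ → H →L[ℝ] H) (T : ℕ → ℕ → H →L[ℝ] H), SCL H J e w S T →
  ∀ (σ : ∀ k, Fin (2 ^ k) → GG k → ℝ) (τ : ∀ k, Fin (2 ^ (k + 1)) → GG k → ℝ),
    CAP (EE J σ τ)

/-- EX: the elements exist (orthogonality gives the constraint, `J k (e k) = w`) -/
def ST_EX : Prop := ∀ (H : Type) [NormedAddCommGroup H] [InnerProductSpace ℝ H] [CompleteSpace H]
  (J : ℕ → H →L[ℝ] H) (e : ℕ → H) (w : H) (S : ℕ → H →L[ℝ] H) (T : ℕ → ℕ → H →L[ℝ] H),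
  SCL H J e w S T → ∀ (σ : ∀ k, Fin (2 ^ k) → GG k → ℝ) (τ : ∀ k, Fin (2 ^ (k + 1)) → GG k → ℝ)
  (δ : ℕ → ℝ), CO σ τ δ → ∃ ξ : ∀ k, Fin (2 ^ (k + 1)) → EE J σ τ, IsEl e J σ τ ξ

/-- BD: differences. By the constraint `bt k T` is also given by `σ (k+1)` on block `k + 1`; so
`bt (k+1) T - bt k T` is the average over `g` of `⟪w, J (k+1) (cd (T φ_g) (k+1) g)⟫`,
`φ_g = 2^(-k-2) ∑ j, τ (k+1) j g • ξ (k+1) j - 2^(-k-1) ∑ i, σ (k+1) i g • ξ k i`, and the blocks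
`k, k+1, k+2` of `φ_g` have norms at most `δ k (k+2)`, `δ (k+1) (k+3)`, `δ (k+1) (k+4)`. -/
def ST_BD : Prop := ∀ (H : Type) [NormedAddCommGroup H] [InnerProductSpace ℝ H] [CompleteSpace H]
  (J : ℕ → H →L[ℝ] H) (e : ℕ → H) (w : H) (S : ℕ → H →L[ℝ] H) (T : ℕ → ℕ → H →L[ℝ] H),
  SCL H J e w S T → ∀ (σ : ∀ k, Fin (2 ^ k) → GG k → ℝ) (τ : ∀ k, Fin (2 ^ (k + 1)) → GG k → ℝ)
  (δ : ℕ → ℝ), CO σ τ δ → ∀ ξ : ∀ k, Fin (2 ^ (k + 1)) → EE J σ τ, IsEl e J σ τ ξ →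
    ∀ (k : ℕ) (R : EE J σ τ →L[ℝ] EE J σ τ), |bt w J σ τ ξ (k + 1) R - bt w J σ τ ξ k R| ≤
      ‖R‖ * (((k : ℝ) + 4) * δ k + 2 * (((k + 1 : ℕ) : ℝ) + 4) * δ (k + 1))

/-- BI: `bt k id = 1`, and `bt k` is continuous for strong convergence -/
def ST_BI : Prop := ∀ (H : Type) [NormedAddCommGroup H] [InnerProductSpace ℝ H] [CompleteSpace H]
  (J : ℕ → H →L[ℝ] H) (e : ℕ → H) (w : H) (S : ℕ → H →L[ℝ] H) (T : ℕ → ℕ → H →L[ℝ] H),
  SCL H J e w S T → ∀ (σ : ∀ k, Fin (2 ^ k) → GG k → ℝ) (τ : ∀ k, Fin (2 ^ (k + 1)) → GG k → ℝ)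
  (δ : ℕ → ℝ), CO σ τ δ → ∀ ξ : ∀ k, Fin (2 ^ (k + 1)) → EE J σ τ, IsEl e J σ τ ξ →
    (∀ k, bt w J σ τ ξ k (ContinuousLinearMap.id ℝ _) = 1) ∧
    ∀ (k : ℕ) (R : ℕ → EE J σ τ →L[ℝ] EE J σ τ), (∀ x, Tendsto (fun i => R i x) atTop (𝓝 x)) →
      Tendsto (fun i => bt w J σ τ ξ k (R i)) atTop (𝓝 1)

/-- BF: `bt k R → 0` for `R` of finite rank. `R = ∑ f_i(·) y_i`; for `R = f(·) y`:
`bt k R = f (2^(-k-1) ∑ j, c j • ξ k j)`, `∑ (c j)^2 ≤ ‖y‖^2` (Bessel), and the norm of the sum is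
at most `2 (k + 3) 2^(-(k+1)/2) ‖y‖` (Cauchy-Schwarz). -/
def ST_BF : Prop := ∀ (H : Type) [NormedAddCommGroup H] [InnerProductSpace ℝ H] [CompleteSpace H]
  (J : ℕ → H →L[ℝ] H) (e : ℕ → H) (w : H) (S : ℕ → H →L[ℝ] H) (T : ℕ → ℕ → H →L[ℝ] H),
  SCL H J e w S T → ∀ (σ : ∀ k, Fin (2 ^ k) → GG k → ℝ) (τ : ∀ k, Fin (2 ^ (k + 1)) → GG k → ℝ)
  (δ : ℕ → ℝ), CO σ τ δ → ∀ ξ : ∀ k, Fin (2 ^ (k + 1)) → EE J σ τ, IsEl e J σ τ ξ →
    ∀ R ∈ FR (EE J σ τ), Tendsto (fun k => bt w J σ τ ξ k R) atTop (𝓝 0)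

/-- NA (from EX, BD, BI, BF): no sequence in the closure of the finite rank operators tends to the
identity. `|bt k R| ≤ |bt 0 R| + C ‖R‖`, so `bt k R → 0` also for `R` in the closure; then
`|bt k R| ≤ ‖R‖ ε_k` with `ε_k` the tail of the series; `sup ‖R i‖ < ∞` (Banach-Steinhaus), `i → ∞`:
`1 ≤ M ε_k`. -/
def ST_NA : Prop := ∀ (H : Type) [NormedAddCommGroup H] [InnerProductSpace ℝ H] [CompleteSpace H]
  [TopologicalSpace.SeparableSpace H]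
  (J : ℕ → H →L[ℝ] H) (e : ℕ → H) (w : H) (S : ℕ → H →L[ℝ] H) (T : ℕ → ℕ → H →L[ℝ] H),
  SCL H J e w S T → ∀ (σ : ∀ k, Fin (2 ^ k) → GG k → ℝ) (τ : ∀ k, Fin (2 ^ (k + 1)) → GG k → ℝ)
  (δ : ℕ → ℝ), CO σ τ δ → CompleteSpace (EE J σ τ) →
    ¬ ∃ R : ℕ → EE J σ τ →L[ℝ] EE J σ τ, (∀ i, R i ∈ closure (FR (EE J σ τ))) ∧
      ∀ x, Tendsto (fun i => R i x) atTop (𝓝 x)

end Pool.Agent.Helper31.BQ
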